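import Pool.Agent.H25.GD.Targets

/-!
# Module V_BOX: the inequality for the boxes
-/

set_option autoImplicit false

namespace Pool.Agent.H10.GD

open MeasureTheory Filter Topology
open Pool.Agent.H44.DU

theorem cont_xi (t : ℝ) : Continuous (xi t) := by
  change Continuous fun z : ℂ => z.re - t * z.im
  fun_prop

theorem isClosed_bx (t a b c d : ℝ) : IsClosed (bx t a b c d) := by
  have e : bx t a b c d = (xi t) ⁻¹' (Set.Icc a b) ∩ Complex.im ⁻¹' (Set.Icc c d) := by
    ext z
    simp only [bx, Set.mem_ofPred_eq, Set.mem_inter_iff, Set.mem_preimage, Set.mem_Icc]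
    tauto
  rw [e]
  exact (isClosed_Icc.preimage (cont_xi t)).inter (isClosed_Icc.preimage Complex.continuous_im)

theorem hbx_sub (t a b c d : ℝ) : hbx t a b c d ⊆ bx t a b c d :=
  fun _ hz => ⟨hz.1, hz.2.1.le, hz.2.2.1, hz.2.2.2⟩

theorem isCompact_tri {n : ℕ} (S : Surf n) (i : Fin n) : IsCompact (S.tri i) :=
  (Set.finite_range (S.v i)).isCompact_convexHull ℝ

/-- a neighbourhood of the boxes in the triangle -/
theorem exists_eta {n : ℕ} (S : Surf n) (i : Fin n) (m : ℕ) (Bx : ℕ → Set ℂ)
    (hcl : ∀ j < m, IsClosed (Bx j)) (hsub : ∀ j < m, Bx j ⊆ interior (S.tri i)) :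
    ∃ η > (0 : ℝ), ∀ j < m, ∀ z ∈ Bx j, ∀ w : ℂ, ‖w - z‖ ≤ η → w ∈ S.tri i := by
  have hcomp : IsCompact (⋃ j ∈ Finset.range m, Bx j) := by
    apply (Finset.range m).isCompact_biUnion
    intro j hj
    have hj' := Finset.mem_range.1 hj
    exact (isCompact_tri S i).of_isClosed_subset (hcl j hj')
      ((hsub j hj').trans interior_subset)
  have hss : (⋃ j ∈ Finset.range m, Bx j) ⊆ interior (S.tri i) := by
    intro z hz
    simp only [Set.mem_iUnion, Finset.mem_range, exists_prop] at hz
    obtain ⟨j, hj, hz⟩ := hz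
    exact hsub j hj hz
  obtain ⟨η, hη, hsub2⟩ := hcomp.exists_cthickening_subset_open isOpen_interior hss
  refine ⟨η, hη, fun j hj z hz w hw => interior_subset (hsub2 ?_)⟩
  apply Metric.mem_cthickening_of_dist_le w z η
  · simp only [Set.mem_iUnion, Finset.mem_range, exists_prop]
    exact ⟨j, hj, hz⟩
  · rw [dist_eq_norm]
    exact hw

/-- lower bound for the integral of a square -/
theorem sq_lower {R : Set ℂ} {G : ℂ → ℝ} {a b E V : ℝ} (ha : 0 < a) (hb : 0 < b)
    (hvol : volume R = ENNReal.ofReal (a * b)) (hG : IntegrableOn G R)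
    (hG2 : IntegrableOn (fun z => G z ^ 2) R) (hint : V * b * E ≤ ∫ z in R, G z) (hE : 0 ≤ E)
    (hV : 0 ≤ V) : V ^ 2 * (E ^ 2 * b / a) ≤ ∫ z in R, G z ^ 2 := by
  obtain ⟨l, hl⟩ : ∃ l, l = V * E / a := ⟨_, rfl⟩
  have hl0 : 0 ≤ l := by rw [hl]; positivity
  have hfin : volume R ≠ ⊤ := by rw [hvol]; exact ENNReal.ofReal_ne_top
  have h1 : 0 ≤ ∫ z in R, (G z - l) ^ 2 := integral_nonneg fun _ => sq_nonneg _
  have h2 : ∫ z in R, (G z - l) ^ 2 = (∫ z in R, G z ^ 2) - 2 * l * (∫ z in R, G z) +
      l ^ 2 * (a * b) := by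
    have e : ∀ z, (G z - l) ^ 2 = (G z ^ 2 - 2 * l * G z) + l ^ 2 := fun z => by ring
    have i1 : IntegrableOn (fun z => G z ^ 2 - 2 * l * G z) R := hG2.sub (hG.const_mul _)
    have i2 : IntegrableOn (fun _ : ℂ => l ^ 2) R := integrableOn_const hfin
    simp only [e]
    rw [integral_add i1 i2, integral_sub hG2 (hG.const_mul _), integral_const_mul,
      setIntegral_const, smul_eq_mul, measureReal_def, hvol,
      ENNReal.toReal_ofReal (by positivity)]
    ring
  rw [h2] at h1
  have h3 : 2 * l * (V * b * E) ≤ 2 * l * ∫ z in R, G z :=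
    mul_le_mul_of_nonneg_left hint (by positivity)
  have h4 : V ^ 2 * (E ^ 2 * b / a) = 2 * l * (V * b * E) - l ^ 2 * (a * b) := by
    rw [hl]
    field_simp
    ring
  rw [h4]
  linarith

/-- The inequality for the boxes. -/
theorem pf_V_BOX (h1 : V_PAIR) (h2 : V_ABS) (h3 : V_BXI) : V_BOX := by
  classical
  intro n S K P C t₀ i hK hC hNM hcont hOm ht0 hpos m x c d hbox
  obtain ⟨R, hR⟩ : ∃ R : ℕ → Set ℂ, R = fun j => hbx t₀ (x j) (x (j + 1)) (c j) (d j) :=
    ⟨_, rfl⟩
  have hRj : ∀ j, R j = hbx t₀ (x j) (x (j + 1)) (c j) (d j) := fun j => by rw [hR]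
  have hRm : ∀ j < m, MeasurableSet (R j) := by
    intro j hj
    rw [hRj]
    exact ((h3 _ _ _ _ (hbox j hj).1.le (hbox j hj).2.1.le).1 t₀).1
  have hRv : ∀ j < m, volume (R j) = ENNReal.ofReal ((x (j + 1) - x j) * (d j - c j)) := by
    intro j hj
    rw [hRj]
    exact ((h3 _ _ _ _ (hbox j hj).1.le (hbox j hj).2.1.le).1 t₀).2
  obtain ⟨U, hU⟩ : ∃ U : Set ℂ, U = ⋃ j ∈ Finset.range m, R j := ⟨_, rfl⟩
  have hUm : MeasurableSet U := by
    rw [hU]
    exact Finset.measurableSet_biUnion _ fun j hj => hRm j (Finset.mem_range.1 hj)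
  have hRU : ∀ j < m, R j ⊆ U := by
    intro j hj z hz
    rw [hU]
    simp only [Set.mem_iUnion, Finset.mem_range, exists_prop]
    exact ⟨j, hj, hz⟩
  have hUex : ∀ z ∈ U, ∃ j < m, z ∈ R j := by
    intro z hz
    rw [hU] at hz
    simp only [Set.mem_iUnion, Finset.mem_range, exists_prop] at hz
    exact hz
  have hxmono : ∀ k, k ≤ m → ∀ j, j ≤ k → x j ≤ x k := by
    intro k
    induction k with
    | zero =>
      intro _ j hj
      obtain rfl : j = 0 := by omega
      exact le_rfl
    | succ k ih =>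
      intro hk j hj
      rcases Nat.lt_or_ge j (k + 1) with h | h
      · exact (ih (by omega) j (by omega)).trans (hbox k (by omega)).1.le
      · obtain rfl : j = k + 1 := by omega
        exact le_rfl
  have hdj : ∀ j k, j < k → k < m → Disjoint (R j) (R k) := by
    intro j k hjk hk
    rw [Set.disjoint_left]
    intro z hz1 hz2
    rw [hRj] at hz1 hz2
    have e1 := hz1.2.1
    have e2 := hz2.1
    have e3 := hxmono k hk.le (j + 1) hjk
    linarith
  have hdisj : Set.Pairwise (↑(Finset.range m)) (Function.onFun Disjoint R) := by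
    intro j hj k hk hjk
    have hj' := Finset.mem_range.1 hj
    have hk' := Finset.mem_range.1 hk
    rcases Nat.lt_or_gt_of_ne hjk with h | h
    · exact hdj j k h hk'
    · exact (hdj k j h hj').symm
  have hUfin : volume U < ⊤ := by
    rw [hU]
    refine (measure_biUnion_lt_top (Finset.finite_toSet _) fun j hj => ?_)
    rw [hRv j (Finset.mem_range.1 hj)]
    exact ENNReal.ofReal_lt_top
  obtain ⟨η, hη0, hη'⟩ := exists_eta S i m (fun j => bx t₀ (x j) (x (j + 1)) (c j) (d j))
    (fun j _ => isClosed_bx _ _ _ _ _) (fun j hj => (hbox j hj).2.2)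
  have hη : ∀ z ∈ U, ∀ w : ℂ, ‖w - z‖ ≤ η → w ∈ S.tri i := by
    intro z hz w hw
    obtain ⟨j, hj, hz⟩ := hUex z hz
    rw [hRj] at hz
    exact hη' j hj z (hbx_sub _ _ _ _ _ hz) w hw
  -- constants
  obtain ⟨B0, hB0⟩ := hK.isBounded.exists_norm_le
  obtain ⟨B, hB, hBK⟩ : ∃ B : ℝ, 0 ≤ B ∧ ∀ t ∈ K, |t| ≤ B :=
    ⟨max B0 0, le_max_right _ _, fun t ht => (hB0 t ht).trans (le_max_left _ _)⟩
  obtain ⟨H, hH⟩ : ∃ H, H = ∑ j ∈ Finset.range m, (|c j| + |d j|) := ⟨_, rfl⟩
  have hH0 : 0 ≤ H := by
    rw [hH]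
    exact Finset.sum_nonneg fun j _ => by positivity
  have hHj : ∀ j < m, |c j| ≤ H ∧ |d j| ≤ H := by
    intro j hj
    have h := Finset.single_le_sum (f := fun j => |c j| + |d j|) (fun j _ => by positivity)
      (Finset.mem_range.2 hj)
    rw [← hH] at h
    have e1 := abs_nonneg (c j)
    have e2 := abs_nonneg (d j)
    constructor <;> linarith
  obtain ⟨X0, hX0⟩ : ∃ X0, X0 = ∑ j ∈ Finset.range (m + 1), |x j| := ⟨_, rfl⟩
  have hX0j : ∀ j, j ≤ m → |x j| ≤ X0 := by
    intro j hj
    rw [hX0]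
    exact Finset.single_le_sum (f := fun j => |x j|) (fun j _ => abs_nonneg _)
      (Finset.mem_range.2 (by omega))
  obtain ⟨X, hX⟩ : ∃ X, X = X0 + 2 * B * H + 1 := ⟨_, rfl⟩
  have hxi : ∀ t ∈ K, ∀ z ∈ U, |xi t z| ≤ X0 + 2 * B * H := by
    intro t ht z hz
    obtain ⟨j, hj, hz⟩ := hUex z hz
    rw [hRj] at hz
    have e0 : xi t z = xi t₀ z + (t₀ - t) * z.im := by
      unfold xi
      ring
    have e1 : |xi t₀ z| ≤ X0 := by
      have a1 := abs_le.1 (hX0j j (by omega))
      have a2 := abs_le.1 (hX0j (j + 1) (by omega))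
      rw [abs_le]
      have := hz.1
      have := hz.2.1
      constructor <;> linarith
    have e2 : |z.im| ≤ H := by
      have a1 := abs_le.1 (hHj j hj).1
      have a2 := abs_le.1 (hHj j hj).2
      have := hz.2.2.1
      have := hz.2.2.2
      rw [abs_le]
      constructor <;> linarith
    have e3 : |t₀ - t| ≤ 2 * B := by
      have a1 := abs_le.1 (hBK t ht)
      have a2 := abs_le.1 (hBK t₀ ht0)
      rw [abs_le]
      constructor <;> linarith
    calc |xi t z| ≤ |xi t₀ z| + |(t₀ - t) * z.im| := by rw [e0]; exact abs_add_le _ _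
      _ = |xi t₀ z| + |t₀ - t| * |z.im| := by rw [abs_mul]
      _ ≤ X0 + 2 * B * H := add_le_add e1 (mul_le_mul e3 e2 (abs_nonneg _) (by positivity))
  have hpc : ContinuousOn (fun q : ℝ × ℝ => P q.1 i q.2) (K ×ˢ Set.Icc (-X) X) :=
    (hcont i).mono (Set.prod_mono le_rfl (Set.subset_univ _))
  have hcompact : IsCompact (K ×ˢ Set.Icc (-X) X) := hK.prod isCompact_Icc
  obtain ⟨M0, hM0⟩ := hcompact.exists_bound_of_continuousOn hpc
  have hX1 : 0 ≤ X0 := by
    rw [hX0]
    exact Finset.sum_nonneg fun j _ => abs_nonneg _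
  have hXpos : 0 < X := by
    rw [hX]
    positivity
  have hM00 : 0 ≤ M0 := (norm_nonneg _).trans (hM0 (t₀, 0) ⟨ht0, by
    constructor <;> simp only <;> linarith⟩)
  have hM0' : ∀ t ∈ K, ∀ y, |y| ≤ X → |P t i y| ≤ M0 := fun t ht y hy =>
    hM0 (t, y) ⟨ht, abs_le.1 hy⟩
  have hunif : ∀ κ > (0 : ℝ), ∃ del > (0 : ℝ), ∀ t ∈ K, ∀ t' ∈ K, ∀ y y' : ℝ, |y| ≤ X →
      |y'| ≤ X → |t - t'| < del → |y - y'| < del → |P t i y - P t' i y'| < κ := by
    intro κ hκ
    have hu := hcompact.uniformContinuousOn_of_continuous hpc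
    rw [Metric.uniformContinuousOn_iff] at hu
    obtain ⟨del, hdel, h⟩ := hu κ hκ
    refine ⟨del, hdel, fun t ht t' ht' y y' hy hy' e1 e2 => ?_⟩
    have h4 := h (t, y) ⟨ht, abs_le.1 hy⟩ (t', y') ⟨ht', abs_le.1 hy'⟩ (by
      rw [Prod.dist_eq, Real.dist_eq, Real.dist_eq]
      exact max_lt e1 e2)
    rwa [Real.dist_eq] at h4
  have hmonoP : ∀ t ∈ K, Monotone (P t i) := fun t ht => (hNM t ht).im.mono i
  have hcontP : ∀ t ∈ K, Continuous (P t i) := fun t ht => (hNM t ht).im.cont i
  obtain ⟨D, hD⟩ : ∃ D : ℕ → ℝ, D = fun j => P t₀ i (x (j + 1)) - P t₀ i (x j) := ⟨_, rfl⟩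
  have hDj : ∀ j, D j = P t₀ i (x (j + 1)) - P t₀ i (x j) := fun j => by rw [hD]
  obtain ⟨M1, hM1⟩ : ∃ M1, M1 = ∑ j ∈ Finset.range m, (d j - c j) * (2 * M0) := ⟨_, rfl⟩
  have hM10 : 0 ≤ M1 := by
    rw [hM1]
    exact Finset.sum_nonneg fun j hj => mul_nonneg
      (sub_nonneg.2 (hbox j (Finset.mem_range.1 hj)).2.1.le) (by positivity)
  -- the main estimate
  have main : ∀ κ > (0 : ℝ), ∑ j ∈ Finset.range m,
      (max (D j - 2 * κ) 0) ^ 2 * (d j - c j) / (x (j + 1) - x j) ≤ C / 2 := by
    intro κ hκ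
    obtain ⟨del, hdel, hdu⟩ := hunif κ hκ
    obtain ⟨de, hde⟩ : ∃ de, de = del / (4 * (1 + H)) := ⟨_, rfl⟩
    have hde0 : 0 < de := by rw [hde]; positivity
    have hdeH : de * (4 * (1 + H)) = del := by
      rw [hde]
      field_simp
    obtain ⟨J, hJ⟩ : ∃ J, J = K ∩ Set.Ioo (t₀ - de) (t₀ + de) := ⟨_, rfl⟩
    have hJm : MeasurableSet J := by
      rw [hJ]
      exact hK.measurableSet.inter measurableSet_Ioo
    have hJK : J ⊆ K := by
      rw [hJ]
      exact Set.inter_subset_left
    have hJt : ∀ t ∈ J, |t - t₀| < de := by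
      intro t ht
      rw [hJ] at ht
      rw [abs_lt]
      have := ht.2.1
      have := ht.2.2
      constructor <;> linarith
    have hJfin : volume J < ⊤ := (measure_mono hJK).trans_lt hK.measure_lt_top
    obtain ⟨V, hV⟩ : ∃ V, V = (volume J).toReal := ⟨_, rfl⟩
    have hV0 : 0 < V := by
      rw [hV]
      refine ENNReal.toReal_pos ?_ hJfin.ne
      rw [hJ]
      exact (hpos de hde0).ne'
    apply le_of_forall_pos_le_add
    intro δ hδ
    obtain ⟨W, hW⟩ : ∃ W, W = 8 * (1 + B) * M1 / (η * V) := ⟨_, rfl⟩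
    have hW0 : 0 ≤ W := by rw [hW]; positivity
    obtain ⟨κ2, hκ2⟩ : ∃ κ2, κ2 = δ / (W + 1) := ⟨_, rfl⟩
    have hκ20 : 0 < κ2 := by rw [hκ2]; positivity
    have hWκ : W * κ2 ≤ δ := by
      rw [hκ2, mul_div_assoc', div_le_iff₀ (by positivity)]
      nlinarith
    obtain ⟨del2, hdel2, hdu2⟩ := hunif κ2 hκ20
    obtain ⟨ε, hε⟩ : ∃ ε, ε = min (min (del / 8) (del2 / 4)) 1 := ⟨_, rfl⟩
    have hε0 : 0 < ε := by
      rw [hε]
      exact lt_min (lt_min (by positivity) (by positivity)) one_pos
    have hε1 : ε ≤ del / 8 := by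
      rw [hε]
      exact (min_le_left _ _).trans (min_le_left _ _)
    have hε2 : ε ≤ del2 / 4 := by
      rw [hε]
      exact (min_le_left _ _).trans (min_le_right _ _)
    have hε3 : ε ≤ 1 := by
      rw [hε]
      exact min_le_right _ _
    obtain ⟨g, hg⟩ : ∃ g : ℝ → ℂ → ℝ, g = fun t z => mo ε (P t i) (xi t z) := ⟨_, rfl⟩
    have hgt : ∀ t z, g t z = (P t i (xi t z + ε) - P t i (xi t z - ε)) / (2 * ε) := by
      intro t z
      rw [hg]
      rfl
    have hX2 : ∀ t ∈ K, ∀ z ∈ U, |xi t z + ε| ≤ X ∧ |xi t z - ε| ≤ X := by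
      intro t ht z hz
      have h4 := abs_le.1 (hxi t ht z hz)
      rw [abs_le, abs_le, hX]
      constructor <;> constructor <;> linarith
    have hgbd : ∀ t ∈ K, ∀ z ∈ U, 0 ≤ g t z ∧ g t z ≤ M0 / ε := by
      intro t ht z hz
      obtain ⟨e1, e2⟩ := hX2 t ht z hz
      rw [hgt]
      constructor
      · exact div_nonneg (sub_nonneg.2 (hmonoP t ht (by linarith))) (by positivity)
      · rw [div_le_div_iff₀ (by positivity) hε0]
        have a1 := abs_le.1 (hM0' t ht _ e1)
        have a2 := abs_le.1 (hM0' t ht _ e2)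
        nlinarith
    have hgsm : ∀ t ∈ K, ∀ z ∈ U, g t z ≤ κ2 / (2 * ε) := by
      intro t ht z hz
      obtain ⟨e1, e2⟩ := hX2 t ht z hz
      rw [hgt]
      apply div_le_div_of_nonneg_right _ (by positivity)
      have h4 := hdu2 t ht t ht _ _ e1 e2 (by rw [sub_self, abs_zero]; exact hdel2) (by
        have : xi t z + ε - (xi t z - ε) = 2 * ε := by ring
        rw [this, abs_of_pos (by positivity)]
        linarith)
      exact (le_abs_self _).trans h4.le
    have hgcont : ContinuousOn (fun q : ℝ × ℂ => g q.1 q.2) (J ×ˢ U) := by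
      have e : (fun q : ℝ × ℂ => g q.1 q.2) = fun q : ℝ × ℂ =>
          (P q.1 i (xi q.1 q.2 + ε) - P q.1 i (xi q.1 q.2 - ε)) / (2 * ε) := by
        funext q
        rw [hgt]
      rw [e]
      have hxc : Continuous fun q : ℝ × ℂ => xi q.1 q.2 := by
        change Continuous fun q : ℝ × ℂ => q.2.re - q.1 * q.2.im
        fun_prop
      have k1 : ContinuousOn (fun q : ℝ × ℂ => P q.1 i (xi q.1 q.2 + ε)) (J ×ˢ U) :=
        (hcont i).comp (f := fun q : ℝ × ℂ => (q.1, xi q.1 q.2 + ε))
          (Continuous.continuousOn (by fun_prop)) fun q hq => ⟨hJK hq.1, trivial⟩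
      have k2 : ContinuousOn (fun q : ℝ × ℂ => P q.1 i (xi q.1 q.2 - ε)) (J ×ˢ U) :=
        (hcont i).comp (f := fun q : ℝ × ℂ => (q.1, xi q.1 q.2 - ε))
          (Continuous.continuousOn (by fun_prop)) fun q hq => ⟨hJK hq.1, trivial⟩
      exact (k1.sub k2).div_const _
    have hgI : ∀ t ∈ K, ∀ j < m, IntegrableOn (g t) (R j) ∧
        (d j - c j) * (P t i (x (j + 1) - ε - |t₀ - t| * H) - P t i (x j + ε + |t₀ - t| * H)) ≤
          ∫ z in R j, g t z ∧
        ∫ z in R j, g t z ≤ (d j - c j) *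
          (P t i (x (j + 1) + ε + |t₀ - t| * H) - P t i (x j - ε - |t₀ - t| * H)) := by
      intro t ht j hj
      have h4 := (h3 _ _ _ _ (hbox j hj).1.le (hbox j hj).2.1.le).2 (P t i) t t₀ ε H
        (hmonoP t ht) (hcontP t ht) hε0 (hHj j hj).1 (hHj j hj).2
      rw [hRj, hg]
      exact h4
    have hgU : ∀ t ∈ K, IntegrableOn (g t) U ∧ ∫ z in U, g t z ≤ M1 := by
      intro t ht
      have hI : ∀ j ∈ Finset.range m, IntegrableOn (g t) (R j) := fun j hj =>
        (hgI t ht j (Finset.mem_range.1 hj)).1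
      constructor
      · rw [hU]
        exact (integrableOn_finset_iUnion).2 hI
      · rw [hU, integral_biUnion_finset _ (fun j hj => hRm j (Finset.mem_range.1 hj)) hdisj hI,
          hM1]
        apply Finset.sum_le_sum
        intro j hj
        have hj' := Finset.mem_range.1 hj
        refine ((hgI t ht j hj').2.2).trans ?_
        apply mul_le_mul_of_nonneg_left _ (sub_nonneg.2 (hbox j hj').2.1.le)
        have e3 : |t₀ - t| * H ≤ 2 * B * H := by
          apply mul_le_mul_of_nonneg_right _ hH0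
          have a1 := abs_le.1 (hBK t ht)
          have a2 := abs_le.1 (hBK t₀ ht0)
          rw [abs_le]
          constructor <;> linarith
        have e4 : 0 ≤ |t₀ - t| * H := by positivity
        have a3 := abs_le.1 (hX0j (j + 1) (by omega))
        have a4 := abs_le.1 (hX0j j (by omega))
        have a1 := abs_le.1 (hM0' t ht (x (j + 1) + ε + |t₀ - t| * H) (by
          rw [abs_le, hX]
          constructor <;> linarith))
        have a2 := abs_le.1 (hM0' t ht (x j - ε - |t₀ - t| * H) (by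
          rw [abs_le, hX]
          constructor <;> linarith))
        linarith
    -- the square of the average
    obtain ⟨ρ, hρ⟩ : ∃ ρ, ρ = 8 * (1 + B) * ε / η := ⟨_, rfl⟩
    have hρ0 : 0 < ρ := by rw [hρ]; positivity
    obtain ⟨N, hN⟩ : ∃ N, N = κ2 / (2 * ε) * M1 := ⟨_, rfl⟩
    have hN0 : 0 ≤ N := by rw [hN]; positivity
    obtain ⟨q1, q2⟩ := h2 J U g ρ (C / 2) N (M0 / ε) hJm hUm hJfin hUfin hρ0.le (by positivity)
      hN0 hgcont (fun t ht z hz => hgbd t (hJK ht) z hz) (by
        intro t ht t' ht' htt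
        have hlt : t < t' := by linarith
        have h4 := h1 n S t t' ε η B (P t) (P t') i U hlt (hBK t (hJK ht)) (hBK t' (hJK ht'))
          hε0 hη0 (by
            have : 8 * (1 + B) * ε = η * ρ := by
              rw [hρ]
              field_simp
            rw [this]
            exact mul_le_mul_of_nonneg_left htt hη0.le) (hNM t (hJK ht)).im
          (hNM t' (hJK ht')).im hUm hη
        have h5 := h4.trans (hOm t (hJK ht) t' (hJK ht') hlt)
        have h6 : ∫ z in U, mo ε (P t i) (xi t z) * mo ε (P t' i) (xi t' z) =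
            ∫ z in U, g t z * g t' z := by rw [hg]
        rw [h6] at h5
        have h7 : 0 < t' - t := by linarith
        by_contra hc
        push Not at hc
        nlinarith) (by
        intro t ht t' ht'
        calc ∫ z in U, g t z * g t' z ≤ ∫ z in U, κ2 / (2 * ε) * g t z := by
              apply integral_mono_of_nonneg
              · rw [Filter.EventuallyLE, ae_restrict_iff' hUm]
                refine Filter.Eventually.of_forall fun z hz => ?_
                exact mul_nonneg (hgbd t (hJK ht) z hz).1 (hgbd t' (hJK ht') z hz).1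
              · exact (hgU t (hJK ht)).1.const_mul _
              · rw [Filter.EventuallyLE, ae_restrict_iff' hUm]
                refine Filter.Eventually.of_forall fun z hz => ?_
                rw [mul_comm]
                exact mul_le_mul_of_nonneg_right (hgsm t' (hJK ht') z hz)
                  (hgbd t (hJK ht) z hz).1
          _ = κ2 / (2 * ε) * ∫ z in U, g t z := integral_const_mul _ _
          _ ≤ N := by
              rw [hN]
              exact mul_le_mul_of_nonneg_left (hgU t (hJK ht)).2 (by positivity))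
    rw [← hV] at q2
    obtain ⟨G, hGd⟩ : ∃ G : ℂ → ℝ, G = fun z => ∫ t in J, g t z := ⟨_, rfl⟩
    have q1' : IntegrableOn (fun z => G z ^ 2) U := by rw [hGd]; exact q1
    have q2' : ∫ z in U, G z ^ 2 ≤ C / 2 * V ^ 2 + 2 * ρ * N * V := by rw [hGd]; exact q2
    -- Fubini
    have hintj : ∀ j < m, Integrable (Function.uncurry fun (z : ℂ) (t : ℝ) => g t z)
        ((volume.restrict (R j)).prod (volume.restrict J)) := by
      intro j hj
      rw [Measure.prod_restrict]
      have hmeas : MeasurableSet (R j ×ˢ J) := (hRm j hj).prod hJm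
      have hlt : (volume.prod volume : Measure (ℂ × ℝ)) (R j ×ˢ J) < ⊤ := by
        rw [Measure.prod_prod]
        exact ENNReal.mul_lt_top (by rw [hRv j hj]; exact ENNReal.ofReal_lt_top) hJfin
      refine IntegrableOn.of_bound hlt ?_ (M0 / ε) ?_
      · apply ContinuousOn.aestronglyMeasurable _ hmeas
        have e : (Function.uncurry fun (z : ℂ) (t : ℝ) => g t z) =
            (fun q : ℝ × ℂ => g q.1 q.2) ∘ Prod.swap := rfl
        rw [e]
        exact hgcont.comp continuous_swap.continuousOn fun q hq => ⟨hq.2, hRU j hj hq.1⟩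
      · rw [ae_restrict_iff' hmeas]
        refine Filter.Eventually.of_forall fun q hq => ?_
        have h4 := hgbd q.2 (hJK hq.2) q.1 (hRU j hj hq.1)
        change ‖g q.2 q.1‖ ≤ _
        rw [Real.norm_eq_abs, abs_of_nonneg h4.1]
        exact h4.2
    have hfub : ∀ j < m, IntegrableOn G (R j) ∧
        ∫ z in R j, G z = ∫ t in J, ∫ z in R j, g t z := by
      intro j hj
      have hint := hintj j hj
      constructor
      · have h4 := hint.integral_prod_left
        rw [hGd]
        exact h4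
      · rw [hGd]
        exact integral_integral_swap hint
    have hlow : ∀ j < m, V * (d j - c j) * (max (D j - 2 * κ) 0) ≤ ∫ z in R j, G z := by
      intro j hj
      obtain ⟨-, e1⟩ := hfub j hj
      have hdc : 0 < d j - c j := sub_pos.2 (hbox j hj).2.1
      have hpt : ∀ t ∈ J, (d j - c j) * (D j - 2 * κ) ≤ ∫ z in R j, g t z := by
        intro t ht
        refine le_trans ?_ (hgI t (hJK ht) j hj).2.1
        apply mul_le_mul_of_nonneg_left _ hdc.le
        have ht1 := hJt t ht
        have ht2 : |t₀ - t| < de := by rw [abs_sub_comm]; exact ht1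
        have e3 : |t₀ - t| * H ≤ de * H := mul_le_mul_of_nonneg_right ht2.le hH0
        have e4 : 0 ≤ |t₀ - t| * H := by positivity
        have e5 : de * H ≤ del / 4 := by nlinarith
        have e6 : de < del := by nlinarith
        have e7 : |t₀ - t| * H ≤ 2 * B * H := by
          apply mul_le_mul_of_nonneg_right _ hH0
          have a1 := abs_le.1 (hBK t (hJK ht))
          have a2 := abs_le.1 (hBK t₀ ht0)
          rw [abs_le]
          constructor <;> linarith
        have a3 := abs_le.1 (hX0j (j + 1) (by omega))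
        have a4 := abs_le.1 (hX0j j (by omega))
        have hBH : 0 ≤ 2 * B * H := by positivity
        have b1 := hdu t (hJK ht) t₀ ht0 (x (j + 1) - ε - |t₀ - t| * H) (x (j + 1)) (by
          rw [abs_le, hX]
          constructor <;> linarith) (by
          rw [abs_le, hX]
          constructor <;> linarith) (by linarith) (by
          rw [abs_lt]
          constructor <;> linarith)
        have b2 := hdu t (hJK ht) t₀ ht0 (x j + ε + |t₀ - t| * H) (x j) (by
          rw [abs_le, hX]
          constructor <;> linarith) (by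
          rw [abs_le, hX]
          constructor <;> linarith) (by linarith) (by
          rw [abs_lt]
          constructor <;> linarith)
        have b3 := (abs_lt.1 b1).1
        have b4 := (abs_lt.1 b2).2
        rw [hDj]
        linarith
      have hnn : 0 ≤ ∫ z in R j, G z := by
        apply setIntegral_nonneg (hRm j hj)
        intro z hz
        rw [hGd]
        apply setIntegral_nonneg hJm
        intro t ht
        exact (hgbd t (hJK ht) z (hRU j hj hz)).1
      rcases le_total (D j - 2 * κ) 0 with h4 | h4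
      · rw [max_eq_right h4, mul_zero]
        exact hnn
      · rw [max_eq_left h4, e1]
        have hcst : IntegrableOn (fun _ : ℝ => (d j - c j) * (D j - 2 * κ)) J :=
          integrableOn_const hJfin.ne
        have h5 : ∫ _ in J, (d j - c j) * (D j - 2 * κ) ≤ ∫ t in J, ∫ z in R j, g t z := by
          apply integral_mono_of_nonneg
          · refine Filter.Eventually.of_forall fun t => ?_
            exact mul_nonneg hdc.le h4
          · exact (hintj j hj).integral_prod_right
          · rw [Filter.EventuallyLE, ae_restrict_iff' hJm]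
            exact Filter.Eventually.of_forall fun t ht => hpt t ht
        rw [setIntegral_const, smul_eq_mul, measureReal_def, ← hV] at h5
        linarith
    have hsum : V ^ 2 * ∑ j ∈ Finset.range m,
        (max (D j - 2 * κ) 0) ^ 2 * (d j - c j) / (x (j + 1) - x j) ≤ ∫ z in U, G z ^ 2 := by
      have hI : ∀ j ∈ Finset.range m, IntegrableOn (fun z => G z ^ 2) (R j) := fun j hj =>
        q1'.mono_set (hRU j (Finset.mem_range.1 hj))
      rw [hU, integral_biUnion_finset _ (fun j hj => hRm j (Finset.mem_range.1 hj)) hdisj hI,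
        Finset.mul_sum]
      apply Finset.sum_le_sum
      intro j hj
      have hj' := Finset.mem_range.1 hj
      exact sq_lower (sub_pos.2 (hbox j hj').1) (sub_pos.2 (hbox j hj').2.1) (hRv j hj')
        (hfub j hj').1 (hI j hj) (hlow j hj') (le_max_right _ _) hV0.le
    have hfin : V ^ 2 * ∑ j ∈ Finset.range m,
        (max (D j - 2 * κ) 0) ^ 2 * (d j - c j) / (x (j + 1) - x j) ≤
        V ^ 2 * (C / 2 + δ) := by
      refine hsum.trans (q2'.trans ?_)
      have e1 : 2 * ρ * N * V = V ^ 2 * (W * κ2) := by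
        rw [hρ, hN, hW]
        field_simp
      rw [e1]
      have e2 : V ^ 2 * (W * κ2) ≤ V ^ 2 * δ := mul_le_mul_of_nonneg_left hWκ (by positivity)
      linarith
    exact le_of_mul_le_mul_left hfin (by positivity)
  -- the limit
  have hD0 : ∀ j < m, 0 ≤ D j := by
    intro j hj
    rw [hDj]
    exact sub_nonneg.2 (hmonoP t₀ ht0 (hbox j hj).1.le)
  have hlim : Tendsto (fun κ : ℝ => ∑ j ∈ Finset.range m,
      (max (D j - 2 * κ) 0) ^ 2 * (d j - c j) / (x (j + 1) - x j)) (𝓝[>] 0)
      (𝓝 (∑ j ∈ Finset.range m,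
        (max (D j - 2 * 0) 0) ^ 2 * (d j - c j) / (x (j + 1) - x j))) := by
    have hc : Continuous fun κ : ℝ => ∑ j ∈ Finset.range m,
        (max (D j - 2 * κ) 0) ^ 2 * (d j - c j) / (x (j + 1) - x j) := by
      refine continuous_finsetSum _ fun j _ => ?_
      exact (((((continuous_const.sub (continuous_const.mul continuous_id)).max
        continuous_const).pow 2).mul continuous_const).div_const _)
    exact (hc.tendsto 0).mono_left nhdsWithin_le_nhds
  have hle := le_of_tendsto hlim (eventually_nhdsWithin_of_forall fun κ hκ => main κ hκ)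
  refine le_trans (le_of_eq ?_) hle
  refine Finset.sum_congr rfl fun j hj => ?_
  rw [mul_zero, sub_zero, max_eq_left (hD0 j (Finset.mem_range.1 hj)), hDj]

end Pool.Agent.H10.GD
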