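import Pool.Agent.H25.GD.Targets

/-!
# Module W_TRI: the sum of the side integrals of a triangle
-/

set_option autoImplicit false

namespace Pool.Agent.H10.GD

open MeasureTheory Filter Topology
open Pool.Agent.H44.DU

section piece

variable (ν : Measure ℝ) [IsLocallyFiniteMeasure ν] [NullSingletonClass ν]

/-- The integral of a function given by two formulas. -/
theorem piece {a b c : ℝ} (hac : a ≤ c) (hcb : c ≤ b) {F G : ℝ → ℝ} (hF : Continuous F)
    (hG : Continuous G) (g : ℝ → ℝ) (h1 : ∀ y, y ≤ c → g y = F y) (h2 : ∀ y, c < y → g y = G y) :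
    IntegrableOn g (Set.Ioo a b) ν ∧
      ∫ y in Set.Ioo a b, g y ∂ν = (∫ y in a..c, F y ∂ν) + ∫ y in c..b, G y ∂ν := by
  have i1 : IntervalIntegrable g ν a c := by
    refine (hF.intervalIntegrable (μ := ν) a c).congr fun y hy => ?_
    rw [Set.uIoc_of_le hac] at hy
    exact (h1 y hy.2).symm
  have i2 : IntervalIntegrable g ν c b := by
    refine (hG.intervalIntegrable (μ := ν) c b).congr fun y hy => ?_
    rw [Set.uIoc_of_le hcb] at hy
    exact (h2 y hy.1).symm
  have i3 : IntervalIntegrable g ν a b := i1.trans i2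
  constructor
  · rw [intervalIntegrable_iff_integrableOn_Ioo_of_le (hac.trans hcb)] at i3
    exact i3
  · rw [← integral_Ioc_eq_integral_Ioo, ← intervalIntegral.integral_of_le (hac.trans hcb),
      ← intervalIntegral.integral_add_adjacent_intervals i1 i2]
    congr 1
    · refine intervalIntegral.integral_congr_ae ?_
      refine Filter.Eventually.of_forall fun y hy => ?_
      rw [Set.uIoc_of_le hac] at hy
      exact h1 y hy.2
    · refine intervalIntegral.integral_congr_ae ?_
      refine Filter.Eventually.of_forall fun y hy => ?_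
      rw [Set.uIoc_of_le hcb] at hy
      exact h2 y hy.1

end piece

section geo

variable {n : ℕ} (S : Surf n)

/-- The vertices of the triangle of a side. -/
theorem range_v (s : Side n) {x : ℂ} (hx : x ∈ Set.range (S.v s.1)) :
    x = S.P s ∨ x = S.Q s ∨ x = S.O s := by
  obtain ⟨k, rfl⟩ := hx
  obtain ⟨i, l⟩ := s
  simp only [Surf.P, Surf.Q, Surf.O]
  fin_cases k <;> fin_cases l <;> simp

theorem xl_eq (t : ℝ) (s : Side n) :
    S.xl t s.1 = min (xi t (S.P s)) (min (xi t (S.Q s)) (xi t (S.O s))) := by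
  obtain ⟨i, l⟩ := s
  simp only [Surf.P, Surf.Q, Surf.O, Surf.xl]
  fin_cases l
  · rfl
  · change _ = min (xi t (S.v i 1)) (min (xi t (S.v i 2)) (xi t (S.v i 0)))
    rw [← min_assoc (xi t (S.v i 1)), min_comm]
  · change _ = min (xi t (S.v i 2)) (min (xi t (S.v i 0)) (xi t (S.v i 1)))
    rw [← min_assoc, min_comm]

theorem xr_eq (t : ℝ) (s : Side n) :
    S.xr t s.1 = max (xi t (S.P s)) (max (xi t (S.Q s)) (xi t (S.O s))) := by
  obtain ⟨i, l⟩ := s
  simp only [Surf.P, Surf.Q, Surf.O, Surf.xr]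
  fin_cases l
  · rfl
  · change _ = max (xi t (S.v i 1)) (max (xi t (S.v i 2)) (xi t (S.v i 0)))
    rw [← max_assoc (xi t (S.v i 1)), max_comm]
  · change _ = max (xi t (S.v i 2)) (max (xi t (S.v i 0)) (xi t (S.v i 1)))
    rw [← max_assoc, max_comm]

/-- The triangle is on the left of its sides. -/
theorem half (s : Side n) {z : ℂ} (hz : z ∈ S.tri s.1) :
    0 ≤ (S.Q s - S.P s).re * (z - S.P s).im - (S.Q s - S.P s).im * (z - S.P s).re := by
  have hconv : Convex ℝ {z : ℂ | 0 ≤ (S.Q s - S.P s).re * (z - S.P s).im -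
      (S.Q s - S.P s).im * (z - S.P s).re} := by
    intro x hx y hy a b ha hb hab
    simp only [Set.mem_ofPred_eq, Complex.sub_re, Complex.sub_im, Complex.add_re, Complex.add_im,
      Complex.real_smul, Complex.mul_re, Complex.mul_im, Complex.ofReal_re, Complex.ofReal_im,
      zero_mul, sub_zero, add_zero] at hx hy ⊢
    obtain rfl : b = 1 - a := by linarith
    nlinarith [mul_nonneg ha hx, mul_nonneg hb hy]
  have hsub : S.tri s.1 ⊆ {z : ℂ | 0 ≤ (S.Q s - S.P s).re * (z - S.P s).im -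
      (S.Q s - S.P s).im * (z - S.P s).re} := by
    refine convexHull_min (fun x hx => ?_) hconv
    rcases range_v S s hx with rfl | rfl | rfl
    · simp
    · simp only [Set.mem_ofPred_eq]
      nlinarith
    · exact (S.ar_pos s).le
  exact hsub hz

theorem xi_pt (t t' : ℝ) (s : Side n) (y : ℝ) :
    xi t (S.pt t' s y) = xi t (S.P s) + S.lam t' s y * (xi t (S.Q s) - xi t (S.P s)) := by
  rw [Surf.pt, xi_add, xi_mul, xi_sub]

theorem cont_pt (t t' : ℝ) (s : Side n) : Continuous fun y => xi t (S.pt t' s y) := by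
  simp only [xi_pt, Surf.lam]
  fun_prop

theorem xi_pt_self (t : ℝ) (s : Side n) (y : ℝ) (h : xi t (S.P s) ≠ xi t (S.Q s)) :
    xi t (S.pt t s y) = y := by
  rw [xi_pt, Surf.lam]
  have h1 : xi t (S.P s) - xi t (S.Q s) ≠ 0 := sub_ne_zero.2 h
  field_simp
  ring

/-- comparison of a point of the triangle with the point of a side on the same leaf -/
theorem comp_side (t t' : ℝ) (s : Side n) {z : ℂ} (hz : z ∈ S.tri s.1)
    (h : xi t' (S.P s) ≠ xi t' (S.Q s)) :
    xi t z - xi t (S.pt t' s (xi t' z)) = (t' - t) * (z - S.pt t' s (xi t' z)).im ∧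
    0 ≤ (xi t' (S.Q s) - xi t' (S.P s)) * (z - S.pt t' s (xi t' z)).im := by
  obtain ⟨w, hw⟩ : ∃ w, w = z - S.pt t' s (xi t' z) := ⟨_, rfl⟩
  have h1 : xi t' w = 0 := by
    rw [hw, xi_sub, xi_pt_self S t' s _ h, sub_self]
  have h2 : w.re = t' * w.im := by
    unfold xi at h1
    linarith
  rw [← hw]
  constructor
  · rw [← xi_sub, ← hw]
    unfold xi
    rw [h2]
    ring
  · have h3 := half S s hz
    have h4 : z - S.P s = w + (S.lam t' s (xi t' z) : ℂ) * (S.Q s - S.P s) := by
      rw [hw, Surf.pt]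
      ring
    rw [h4] at h3
    simp only [Complex.add_re, Complex.add_im, Complex.mul_re, Complex.mul_im,
      Complex.ofReal_re, Complex.ofReal_im, zero_mul, sub_zero, add_zero] at h3
    rw [h2] at h3
    rw [← xi_sub]
    unfold xi
    nlinarith

theorem comp_exit (t t' : ℝ) (htt : t ≤ t') (s : Side n) {z : ℂ} (hz : z ∈ S.tri s.1)
    (h : xi t' (S.Q s) < xi t' (S.P s)) : xi t z ≤ xi t (S.pt t' s (xi t' z)) := by
  obtain ⟨h1, h2⟩ := comp_side S t t' s hz h.ne'
  have h3 : (z - S.pt t' s (xi t' z)).im ≤ 0 := by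
    by_contra hc
    push Not at hc
    nlinarith
  nlinarith

theorem comp_entry (t t' : ℝ) (htt : t ≤ t') (s : Side n) {z : ℂ} (hz : z ∈ S.tri s.1)
    (h : xi t' (S.P s) < xi t' (S.Q s)) : xi t (S.pt t' s (xi t' z)) ≤ xi t z := by
  obtain ⟨h1, h2⟩ := comp_side S t t' s hz h.ne
  have h3 : 0 ≤ (z - S.pt t' s (xi t' z)).im := by
    by_contra hc
    push Not at hc
    nlinarith
  nlinarith

/-- The three vertices are not on one leaf. -/
theorem not_all (t : ℝ) (s : Side n) (h1 : xi t (S.P s) = xi t (S.Q s))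
    (h2 : xi t (S.P s) = xi t (S.O s)) : False := by
  have h := S.ar_pos s
  have e1 : xi t (S.Q s - S.P s) = 0 := by rw [xi_sub, h1, sub_self]
  have e2 : xi t (S.O s - S.P s) = 0 := by rw [xi_sub, h2, sub_self]
  unfold xi at e1 e2
  unfold Surf.ar at h
  have e3 : (S.Q s - S.P s).re = t * (S.Q s - S.P s).im := by linarith
  have e4 : (S.O s - S.P s).re = t * (S.O s - S.P s).im := by linarith
  rw [e3, e4] at h
  nlinarith

theorem sum_sides (f : Side n → ℝ) (s : Side n) :
    ∑ k : Fin 3, f (s.1, k) = f s + f (nx s) + f (nx (nx s)) := by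
  obtain ⟨i, l⟩ := s
  rw [Fin.sum_univ_three]
  simp only [nx]
  fin_cases l
  · rfl
  · change f (i, 0) + f (i, 1) + f (i, 2) = f (i, 1) + f (i, 2) + f (i, 0)
    ring
  · change f (i, 0) + f (i, 1) + f (i, 2) = f (i, 2) + f (i, 0) + f (i, 1)
    ring

end geo

/-- The sum of the integrals along the sides of a triangle. -/
theorem pf_W_TRI : W_TRI := by
  intro n S t t' p ν i htt hpm hpc hν1 hν2
  -- a side with the opposite vertex in the middle
  obtain ⟨s, hs, hcase⟩ : ∃ s : Side n, s.1 = i ∧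
      ((xi t' (S.Q s) ≤ xi t' (S.O s) ∧ xi t' (S.O s) ≤ xi t' (S.P s)) ∨
        (xi t' (S.P s) ≤ xi t' (S.O s) ∧ xi t' (S.O s) ≤ xi t' (S.Q s))) := by
    obtain ⟨r, hr⟩ : ∃ r : Side n, r = (i, 0) := ⟨_, rfl⟩
    have hri : r.1 = i := by rw [hr]
    rcases le_total (xi t' (S.P r)) (xi t' (S.Q r)) with h1 | h1
    · rcases le_total (xi t' (S.O r)) (xi t' (S.P r)) with h2 | h2
      · -- O ≤ P ≤ Q : the middle is P, opposite to nx r
        refine ⟨nx r, hri, Or.inl ?_⟩
        rw [S.Q_nx, S.O_nx, S.P_nx]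
        exact ⟨h2, h1⟩
      · rcases le_total (xi t' (S.O r)) (xi t' (S.Q r)) with h3 | h3
        · exact ⟨r, hri, Or.inr ⟨h2, h3⟩⟩
        · -- P ≤ Q ≤ O : the middle is Q, opposite to nx nx r
          refine ⟨nx (nx r), hri, Or.inl ?_⟩
          rw [S.Q_nx_nx, S.O_nx_nx, S.P_nx_nx]
          exact ⟨h1, h3⟩
    · rcases le_total (xi t' (S.O r)) (xi t' (S.Q r)) with h2 | h2
      · -- O ≤ Q ≤ P
        refine ⟨nx (nx r), hri, Or.inr ?_⟩
        rw [S.Q_nx_nx, S.O_nx_nx, S.P_nx_nx]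
        exact ⟨h2, h1⟩
      · rcases le_total (xi t' (S.O r)) (xi t' (S.P r)) with h3 | h3
        · exact ⟨r, hri, Or.inl ⟨h2, h3⟩⟩
        · -- Q ≤ P ≤ O
          refine ⟨nx r, hri, Or.inr ?_⟩
          rw [S.Q_nx, S.O_nx, S.P_nx]
          exact ⟨h1, h3⟩
  subst hs
  have hpk : ∀ r : Side n, Continuous fun y => p s.1 (xi t (S.pt t' r y)) := fun r =>
    hpc.comp (cont_pt S t t' r)
  have e0 : S.SI t t' p ν s = ∫ y in (xi t' (S.Q s))..(xi t' (S.P s)),
      p s.1 (xi t (S.pt t' s y)) ∂(ν s.1) := rfl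
  have e1 : S.SI t t' p ν (nx s) = ∫ y in (xi t' (S.O s))..(xi t' (S.Q s)),
      p s.1 (xi t (S.pt t' (nx s) y)) ∂(ν s.1) := by
    unfold Surf.SI
    rw [S.Q_nx, S.P_nx]
    rfl
  have e2 : S.SI t t' p ν (nx (nx s)) = ∫ y in (xi t' (S.P s))..(xi t' (S.O s)),
      p s.1 (xi t (S.pt t' (nx (nx s)) y)) ∂(ν s.1) := by
    unfold Surf.SI
    rw [S.Q_nx_nx, S.P_nx_nx]
    rfl
  rcases hcase with ⟨hQO, hOP⟩ | ⟨hPO, hOQ⟩
  · -- the side s is an exit
    have hQP : xi t' (S.Q s) < xi t' (S.P s) := by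
      rcases lt_or_eq_of_le (hQO.trans hOP) with h | h
      · exact h
      · exfalso
        exact not_all S t' s h.symm (by linarith)
    have hxl : S.xl t' s.1 = xi t' (S.Q s) := by
      rw [xl_eq, min_eq_left hQO, min_eq_right hQP.le]
    have hxr : S.xr t' s.1 = xi t' (S.P s) := by
      rw [xr_eq, max_eq_right hQO, max_eq_left hOP]
    rw [hxl, hxr]
    obtain ⟨h, hh⟩ : ∃ h : ℝ → ℝ, h = fun y => xi t (S.pt t' s y) := ⟨_, rfl⟩
    obtain ⟨l, hl⟩ : ∃ l : ℝ → ℝ, l = fun y => if y ≤ xi t' (S.O s) then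
      xi t (S.pt t' (nx s) y) else xi t (S.pt t' (nx (nx s)) y) := ⟨_, rfl⟩
    have hl1 : ∀ y, y ≤ xi t' (S.O s) → l y = xi t (S.pt t' (nx s) y) := by
      intro y hy
      rw [hl]
      exact if_pos hy
    have hl2 : ∀ y, xi t' (S.O s) < y → l y = xi t (S.pt t' (nx (nx s)) y) := by
      intro y hy
      rw [hl]
      exact if_neg (not_le.2 hy)
    obtain ⟨j1, j2⟩ := piece (ν s.1) hQO hOP (hpk (nx s)) (hpk (nx (nx s)))
      (fun y => p s.1 (l y)) (fun y hy => by simp only [hl1 y hy])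
      (fun y hy => by simp only [hl2 y hy])
    obtain ⟨j3, j4⟩ := piece (ν s.1) (le_refl (xi t' (S.Q s))) hQP.le (hpk s) (hpk s)
      (fun y => p s.1 (h y)) (fun y _ => by simp only [hh]) (fun y _ => by simp only [hh])
    rw [intervalIntegral.integral_same, zero_add] at j4
    refine ⟨l, h, ?_, ?_, j3.sub j1, ?_⟩
    · intro z hz h1 h2
      constructor
      · rcases le_or_gt (xi t' z) (xi t' (S.O s)) with h3 | h3
        · rw [hl1 _ h3]
          apply comp_entry S t t' htt (nx s) hz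
          rw [S.P_nx, S.Q_nx]
          linarith
        · rw [hl2 _ h3]
          apply comp_entry S t t' htt (nx (nx s)) hz
          rw [S.P_nx_nx, S.Q_nx_nx]
          linarith
      · rw [hh]
        exact comp_exit S t t' htt s hz hQP
    · intro htt' y h1 h2
      have e3 : h y = y := by
        rw [hh, htt']
        exact xi_pt_self S t' s y hQP.ne'
      rw [e3]
      rcases le_or_gt y (xi t' (S.O s)) with h3 | h3
      · rw [hl1 _ h3, htt', xi_pt_self S t' (nx s) y]
        rw [S.P_nx, S.Q_nx]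
        exact (by linarith : xi t' (S.Q s) < xi t' (S.O s)).ne
      · rw [hl2 _ h3, htt', xi_pt_self S t' (nx (nx s)) y]
        rw [S.P_nx_nx, S.Q_nx_nx]
        exact (by linarith : xi t' (S.O s) < xi t' (S.P s)).ne
    · rw [integral_sub j3 j1, j2, j4, sum_sides (S.SI t t' p ν) s, e0, e1, e2,
        intervalIntegral.integral_symm (xi t' (S.Q s)) (xi t' (S.O s)),
        intervalIntegral.integral_symm (xi t' (S.O s)) (xi t' (S.P s))]
      ring
  · -- the side s is an entry
    have hPQ : xi t' (S.P s) < xi t' (S.Q s) := by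
      rcases lt_or_eq_of_le (hPO.trans hOQ) with h | h
      · exact h
      · exfalso
        exact not_all S t' s h (by linarith)
    have hxl : S.xl t' s.1 = xi t' (S.P s) := by
      rw [xl_eq, min_eq_right hOQ, min_eq_left hPO]
    have hxr : S.xr t' s.1 = xi t' (S.Q s) := by
      rw [xr_eq, max_eq_left hOQ, max_eq_right hPQ.le]
    rw [hxl, hxr]
    obtain ⟨l, hl⟩ : ∃ l : ℝ → ℝ, l = fun y => xi t (S.pt t' s y) := ⟨_, rfl⟩
    obtain ⟨h, hh⟩ : ∃ h : ℝ → ℝ, h = fun y => if y ≤ xi t' (S.O s) then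
      xi t (S.pt t' (nx (nx s)) y) else xi t (S.pt t' (nx s) y) := ⟨_, rfl⟩
    have hh1 : ∀ y, y ≤ xi t' (S.O s) → h y = xi t (S.pt t' (nx (nx s)) y) := by
      intro y hy
      rw [hh]
      exact if_pos hy
    have hh2 : ∀ y, xi t' (S.O s) < y → h y = xi t (S.pt t' (nx s) y) := by
      intro y hy
      rw [hh]
      exact if_neg (not_le.2 hy)
    obtain ⟨j1, j2⟩ := piece (ν s.1) hPO hOQ (hpk (nx (nx s))) (hpk (nx s))
      (fun y => p s.1 (h y)) (fun y hy => by simp only [hh1 y hy])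
      (fun y hy => by simp only [hh2 y hy])
    obtain ⟨j3, j4⟩ := piece (ν s.1) (le_refl (xi t' (S.P s))) hPQ.le (hpk s) (hpk s)
      (fun y => p s.1 (l y)) (fun y _ => by simp only [hl]) (fun y _ => by simp only [hl])
    rw [intervalIntegral.integral_same, zero_add] at j4
    refine ⟨l, h, ?_, ?_, j1.sub j3, ?_⟩
    · intro z hz h1 h2
      constructor
      · rw [hl]
        exact comp_entry S t t' htt s hz hPQ
      · rcases le_or_gt (xi t' z) (xi t' (S.O s)) with h3 | h3
        · rw [hh1 _ h3]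
          apply comp_exit S t t' htt (nx (nx s)) hz
          rw [S.P_nx_nx, S.Q_nx_nx]
          linarith
        · rw [hh2 _ h3]
          apply comp_exit S t t' htt (nx s) hz
          rw [S.P_nx, S.Q_nx]
          linarith
    · intro htt' y h1 h2
      have e3 : l y = y := by
        rw [hl, htt']
        exact xi_pt_self S t' s y hPQ.ne
      rw [e3]
      rcases le_or_gt y (xi t' (S.O s)) with h3 | h3
      · rw [hh1 _ h3, htt', xi_pt_self S t' (nx (nx s)) y]
        rw [S.P_nx_nx, S.Q_nx_nx]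
        exact (by linarith : xi t' (S.P s) < xi t' (S.O s)).ne'
      · rw [hh2 _ h3, htt', xi_pt_self S t' (nx s) y]
        rw [S.P_nx, S.Q_nx]
        exact (by linarith : xi t' (S.O s) < xi t' (S.Q s)).ne'
    · rw [integral_sub j1 j3, j2, j4, sum_sides (S.SI t t' p ν) s, e0, e1, e2,
        intervalIntegral.integral_symm (xi t' (S.P s)) (xi t' (S.Q s))]
      ring

end Pool.Agent.H10.GD
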